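import Pool.Agent.Helper38.MR.Spec

/-! Modules CP, CN, MON of the lower bound for monotone real circuits. -/

set_option autoImplicit false

namespace Pool.Agent.Helper91.MR

open Pool.Agent.Helper38.MR

theorem CP : specCP := by
  intro k q A
  classical
  rcases Finset.eq_empty_or_nonempty (Finset.univ.filter fun σ : Fin k → Fin q => A ⊆ trv σ) with h0 | ⟨σ₀, hσ₀⟩
  · have : (Finset.univ.filter fun σ : Fin k → Fin q => A ⊆ trv σ).card = 0 := by
      rw [Finset.card_eq_zero]; convert h0
    rw [this]; simp
  · have hA0 : A ⊆ trv σ₀ := (Finset.mem_filter.1 hσ₀).2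
    have hmem : ∀ (σ : Fin k → Fin q) x, x ∈ trv σ →
        finProdFinEquiv ((finProdFinEquiv.symm x).1, σ (finProdFinEquiv.symm x).1) = x := by
      intro σ x hx
      obtain ⟨i, _, rfl⟩ := Finset.mem_image.1 hx
      simp
    set P : Finset (Fin k) := A.image (fun x => (finProdFinEquiv.symm x).1) with hP
    have hPc : P.card = A.card := by
      rw [hP, Finset.card_image_of_injOn]
      intro x hx y hy hxy
      have h1 := hmem σ₀ x (hA0 hx)
      have h2 := hmem σ₀ y (hA0 hy)
      simp only at hxy
      rw [← h1, ← h2, hxy]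
    have hag : ∀ σ : Fin k → Fin q, A ⊆ trv σ → ∀ i ∈ P, σ i = σ₀ i := by
      intro σ hσ i hi
      obtain ⟨x, hx, rfl⟩ := Finset.mem_image.1 hi
      have h1 := hmem σ₀ x (hA0 hx)
      have h2 := hmem σ x (hσ hx)
      have h3 := finProdFinEquiv.injective (h2.trans h1.symm)
      exact (Prod.mk.inj h3).2
    have hcard : ((Finset.univ.filter fun σ : Fin k → Fin q => A ⊆ trv σ) ×ˢ
        (Finset.univ : Finset (P → Fin q))).card ≤ (Finset.univ : Finset (Fin k → Fin q)).card := by
      refine Finset.card_le_card_of_injOn (fun x i => if h : i ∈ P then x.2 ⟨i, h⟩ else x.1 i)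
        (fun _ _ => Finset.mem_coe.2 (Finset.mem_univ _)) ?_
      rintro ⟨σ, g⟩ h1 ⟨σ', g'⟩ h2 h12
      have h1' : A ⊆ trv σ := (Finset.mem_filter.1 (Finset.mem_product.1 (Finset.mem_coe.1 h1)).1).2
      have h2' : A ⊆ trv σ' := (Finset.mem_filter.1 (Finset.mem_product.1 (Finset.mem_coe.1 h2)).1).2
      have hfun : ∀ i, (if h : i ∈ P then g ⟨i, h⟩ else σ i) = if h : i ∈ P then g' ⟨i, h⟩ else σ' i :=
        fun i => congrFun h12 i
      refine Prod.ext (funext fun i => ?_) (funext fun i => ?_)
      · by_cases hi : i ∈ P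
        · show σ i = σ' i
          rw [hag σ h1' i hi, hag σ' h2' i hi]
        · have := hfun i
          rwa [dif_neg hi, dif_neg hi] at this
      · have := hfun i.1
        rwa [dif_pos i.2, dif_pos i.2] at this
    rw [Finset.card_product, Finset.card_univ, Finset.card_univ, Fintype.card_fun, Fintype.card_fun,
      Fintype.card_fin, Fintype.card_fin, Fintype.card_coe, hPc] at hcard
    convert hcard using 2

theorem mpt_const {m l : ℕ} {c : Fin m → Fin m} {χ : Fin m → Fin l} (h : mpt χ ≤ mpt c)
    {a b : Fin m} (hab : c a = c b) : χ a = χ b := by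
  have key : ∀ a b : Fin m, a < b → c a = c b → χ a = χ b := by
    intro a b hlt hc
    have h1 := h ⟨(a, b), hlt⟩
    unfold mpt at h1
    simp only [hc, ne_eq, not_true_eq_false, decide_false] at h1
    by_contra hne
    simp only [hne, not_false_eq_true, decide_true] at h1
    have h2 : (true : Bool) ≤ false := h1
    revert h2
    decide
  rcases lt_trichotomy a b with hlt | rfl | hlt
  · exact key a b hlt hab
  · rfl
  · exact (key b a hlt hab.symm).symm

theorem CN : specCN := by
  intro m l c
  classical
  have hrep : ∀ y : (Finset.univ.image c), ∃ x, c x = y.1 := by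
    intro y
    obtain ⟨x, _, hx⟩ := Finset.mem_image.1 y.2
    exact ⟨x, hx⟩
  choose r hr using hrep
  have hcard : (Finset.univ.filter fun χ : Fin m → Fin l => mpt χ ≤ mpt c).card ≤
      (Finset.univ : Finset (↥(Finset.univ.image c) → Fin l)).card := by
    refine Finset.card_le_card_of_injOn (fun χ y => χ (r y)) (fun _ _ => Finset.mem_coe.2 (Finset.mem_univ _)) ?_
    intro χ hχ χ' hχ' h12
    have h1 := (Finset.mem_filter.1 (Finset.mem_coe.1 hχ)).2
    have h2 := (Finset.mem_filter.1 (Finset.mem_coe.1 hχ')).2
    funext x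
    have hx : c x ∈ Finset.univ.image c := Finset.mem_image_of_mem _ (Finset.mem_univ _)
    have h3 := congrFun h12 ⟨c x, hx⟩
    simp only at h3
    have h4 : c x = c (r ⟨c x, hx⟩) := (hr ⟨c x, hx⟩).symm
    rw [mpt_const h1 h4, mpt_const h2 h4]
    exact h3
  have hm : (Finset.univ.image c).card ≤ m := by
    have := Finset.card_image_le (s := (Finset.univ : Finset (Fin m))) (f := c)
    simpa using this
  rw [Finset.card_univ, Fintype.card_fun, Fintype.card_fin, Fintype.card_coe] at hcard
  calc ((Finset.univ.filter fun χ : Fin m → Fin l => mpt χ ≤ mpt c).card : ℕ) * l ^ rnk c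
      ≤ l ^ (Finset.univ.image c).card * l ^ rnk c := Nat.mul_le_mul_right _ (by convert hcard using 2)
    _ = l ^ m := by
      rw [← pow_add]
      congr 1
      unfold rnk
      omega

theorem mon_getD {v v' : List ℝ} (h : List.Forall₂ (· ≤ ·) v v') (i : ℕ) :
    v.getD i 0 ≤ v'.getD i 0 := by
  induction h generalizing i with
  | nil => simp
  | cons h1 h2 ih =>
    cases i with
    | zero => simpa using h1
    | succ i => simpa using ih i

theorem mon_val {E : Type} {g : Gate E} (hg : g.Mono) {d d' : E → ℝ} (hd : ∀ e, d e ≤ d' e)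
    {v v' : List ℝ} (h : List.Forall₂ (· ≤ ·) v v') : g.val d v ≤ g.val d' v' := by
  cases g with
  | input e => exact hd e
  | const c => exact le_rfl
  | op f i j => exact hg _ _ _ _ (mon_getD h i) (mon_getD h j)

theorem mon_fold {E : Type} {d d' : E → ℝ} (hd : ∀ e, d e ≤ d' e) (C : List (Gate E))
    (hC : ∀ g ∈ C, g.Mono) (v v' : List ℝ) (h : List.Forall₂ (· ≤ ·) v v') :
    List.Forall₂ (· ≤ ·) (C.foldl (fun vals g => vals ++ [g.val d vals]) v)
      (C.foldl (fun vals g => vals ++ [g.val d' vals]) v') := by
  induction C generalizing v v' with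
  | nil => exact h
  | cons g C ih =>
    refine ih (fun g' hg' => hC g' (List.mem_cons_of_mem _ hg')) _ _ ?_
    exact List.rel_append h (List.Forall₂.cons (mon_val (hC g List.mem_cons_self) hd h) List.Forall₂.nil)

theorem mon_last {v v' : List ℝ} (h : List.Forall₂ (· ≤ ·) v v') (x : ℝ) :
    v.getLastD x ≤ v'.getLastD x := by
  induction h generalizing x with
  | nil => simp
  | cons h1 h2 ih =>
    rename_i a b l1 l2
    cases h2 with
    | nil => simpa using h1
    | cons h3 h4 =>
      have := ih x
      simpa using this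

theorem MON : specMON := by
  intro E C d d' hC hd
  exact mon_last (mon_fold hd C hC [] [] List.Forall₂.nil) 0

end Pool.Agent.Helper91.MR
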